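import Pool.Agent.HF.Stmts

/-!
Squad HF: SIR, the independence of the right multiples.
-/

set_option autoImplicit false

namespace Pool.Agent.HF.H45

open Pool.Agent.Glue Pool.Agent.FB Pool.Agent.CD

variable {G : Type} [Group G]

lemma io_one (h : HFd G) : h.io 1 = 1 := by
  have := h.io_sg 1
  rwa [inv_one, map_one] at this

lemma io_ne (h : HFd G) {x : h.D} (hx : x ≠ 0) : h.io x ≠ 0 := by
  intro h0
  have e := h.io_mul x⁻¹ x
  rw [inv_mul_cancel₀ hx, io_one, h0, zero_mul] at e
  exact one_ne_zero e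

lemma io_inv (h : HFd G) (x : h.D) : h.io x⁻¹ = (h.io x)⁻¹ := by
  by_cases hx : x = 0
  · rw [hx, inv_zero, map_zero, inv_zero]
  · have e := h.io_mul x x⁻¹
    rw [mul_inv_cancel₀ hx, io_one] at e
    exact eq_inv_of_mul_eq_one_left e.symm

/-- The involution preserves the skew fields generated by subgroups. -/
lemma io_mem (h : HFd G) (L : Subgroup G) {x : h.D} (hx : x ∈ DS h.sg (L : Set G)) :
    h.io x ∈ DS h.sg (L : Set G) := by
  unfold DS at hx ⊢
  induction hx using Subfield.closure_induction with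
  | mem x hx =>
    obtain ⟨g, hg, rfl⟩ := hx
    rw [h.io_sg]
    exact Subfield.subset_closure ⟨g⁻¹, L.inv_mem hg, rfl⟩
  | one => rw [io_one]; exact Subfield.one_mem _
  | add x y _ _ hx hy => rw [map_add]; exact Subfield.add_mem _ hx hy
  | neg x _ hx => rw [map_neg]; exact Subfield.neg_mem _ hx
  | inv x _ hx => rw [io_inv]; exact Subfield.inv_mem _ hx
  | mul x y _ _ hx hy => rw [h.io_mul]; exact Subfield.mul_mem _ hy hx

theorem sir (hs : SinStmt) (he : EllStmt) : SirStmt := by
  intro G _ h L r d g hd hg h0 i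
  have e : ∑ i, h.io (d i) * h.sg ((g i)⁻¹) = 0 := by
    have e1 : h.io (∑ i, h.sg (g i) * d i) = ∑ i, h.io (d i) * h.sg ((g i)⁻¹) := by
      rw [map_sum]
      exact Finset.sum_congr rfl fun i _ => by rw [h.io_mul, h.io_sg]
    rw [← e1, h0, map_zero]
  have key := hs G h.D h.sg (fun H hH => he G h.D h.sg H (h.chi H hH)) L r (fun i => h.io (d i))
    (fun i => (g i)⁻¹) (fun i => io_mem h L (hd i)) (fun i j hij => hg i j (by simpa using hij)) e i
  by_contra hne
  exact io_ne h hne key

end Pool.Agent.HF.H45
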